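import Pool.Agent.Lib.MP_688fd0_co.SQ4.H98.FamI

/-!
Type C1, row F12: `Fam1S` and `Fam2S` from the rows of `IfaceF`.
-/

set_option autoImplicit false
set_option linter.unusedSectionVars false

namespace Pool.Agent.Lib.MP_688fd0_co.SQ4.CV.F12

open Pool.Agent.Lib.MP_688fd0_co.OSF Pool.Agent.Lib.MP_688fd0_co.SQ2 Pool.Agent.Lib.MP_688fd0_co.SQ3
open Pool.Agent.Lib.MP_688fd0_co.SQ4
open SQ2.V (Puz)

section mono

variable {S : Type} [Fintype S] [DecidableEq S] {Q : Type} [Group Q] [DecidableEq Q] {B : Lb.{0, 0} Q} {a b : B.L}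
  {eps : Q →* ℤˣ} {D : Subgroup Q} {z : Q} {k : ℕ} {H : HypC B a b eps D z k} {g : S → Q}
  {inj : Function.Injective g} {R : Type} [Fintype R] {X : ClsW H.up g inj (2 * k) R}

theorem FamB.mono {Y : S → Prop} {wd : R → List B.L} {In : R → Prop} {h h' : ℕ}
    (hX : FamB H g inj X Y wd In h) (hh : h ≤ h') : FamB H g inj X Y wd In h' where
  xY := hX.xY
  yY := hX.yY
  fin := hX.fin
  clo := hX.clo
  tin := hX.tin
  inner := hX.inner
  inn := hX.inn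
  inn0 := hX.inn0
  innL := hX.innL
  wt := hX.wt
  hle r := (hX.hle r).trans hh
  vol := hX.vol

theorem FamX.mono {s : B.L} {n : ℤ} {M : Set Q} {Y₀ Y₁ : S → Prop} {wd : R → List B.L} {In : R → Prop} {h h' : ℕ}
    (hX : FamX H g inj X s n M Y₀ Y₁ wd In h) (hh : h ≤ h') : FamX H g inj X s n M Y₀ Y₁ wd In h' where
  toFamB := FamB.mono hX.toFamB hh
  cross := hX.cross
  crs := hX.crs
  crs0 := hX.crs0
  deg := hX.deg
  par := hX.par

theorem CrB.mono {s : B.L} {n : ℤ} {M : Set Q} {Y₀ Y₁ : S → Prop} {wd : R → List B.L} {d h h' : ℕ}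
    (hX : CrB H X s n M Y₀ Y₁ wd d h) (hh : h ≤ h') : CrB H X s n M Y₀ Y₁ wd d h' where
  cls := hX.cls.mono hh (fun _ h => h) (fun _ => rfl)
  cross := hX.cross
  crs := hX.crs
  crs0 := hX.crs0
  deg := hX.deg
  par := hX.par

end mono

section card

variable {S : Type} [Fintype S] {Q : Type} [Group Q] {D : Subgroup Q}

/-- A sheet has at most `k` strands. -/
theorem card_sheet (hf : Finite Q) {k : ℕ} (hk : 0 < k) (hD : Nat.card D ∣ k) {g : S → Q}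
    (inj : Function.Injective g) (v₀ : S) : Nat.card {v // Sh D (g v₀) (g v)} ≤ k := by
  refine le_trans ?_ (Nat.le_of_dvd hk hD)
  exact Nat.card_le_card_of_injective
    (fun v : {v // Sh D (g v₀) (g v)} => (⟨(g v₀)⁻¹ * g v.1, v.2⟩ : D))
    (fun v v' h => Subtype.ext (inj (mul_left_cancel (congrArg Subtype.val h))))

theorem card_two {p q : S → Prop} {k : ℕ} (hp : Nat.card {v // p v} ≤ k) (hq : Nat.card {v // q v} ≤ k) :
    Nat.card {v // p v ∨ q v} ≤ 2 * k := by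
  have h1 : Nat.card {v // p v ∨ q v} ≤ Nat.card ({v // p v} ⊕ {v // q v}) := by
    classical
    exact Nat.card_le_card_of_injective
      (fun v : {v // p v ∨ q v} => if h : p v.1 then Sum.inl ⟨v.1, h⟩ else Sum.inr ⟨v.1, v.2.resolve_left h⟩) (by
        intro v v' h
        simp only at h
        split_ifs at h with h1 h2
        · have h3 := Sum.inl.inj h
          exact Subtype.ext (Subtype.mk.inj h3)
        · have h3 := Sum.inr.inj h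
          exact Subtype.ext (Subtype.mk.inj h3))
  rw [Nat.card_sum] at h1
  omega

end card

theorem bound1 {ρ k t p y : ℕ} (hk : 0 < k) (ht : t ≤ ρ) (hp : p ≤ (1 + ρ ^ 2) * k) (hy : y ≤ 2 * k) :
    1 * (t * p * (2 * k * y)) + t * (2 * p * (k * (2 * k))) ≤ rB ρ k := by
  unfold rB
  have h1 : t * p * (2 * k * y) ≤ ρ * ((1 + ρ ^ 2) * k) * (2 * k * (2 * k)) :=
    Nat.mul_le_mul (Nat.mul_le_mul ht hp) (Nat.mul_le_mul_left _ hy)
  have h2 : t * (2 * p * (k * (2 * k))) ≤ ρ * (2 * ((1 + ρ ^ 2) * k) * (k * (2 * k))) :=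
    Nat.mul_le_mul ht (Nat.mul_le_mul_right _ (Nat.mul_le_mul_left _ hp))
  have h3 : ρ ≤ ρ + k + 2 := by omega
  have h4 : 1 + ρ ^ 2 ≤ (ρ + k + 2) ^ 2 := by nlinarith
  have h5 : k ≤ ρ + k + 2 := by omega
  have h6 : k ^ 3 ≤ (ρ + k + 2) ^ 3 := Nat.pow_le_pow_left h5 3
  have h7 : ρ * (1 + ρ ^ 2) * k ^ 3 ≤ (ρ + k + 2) * (ρ + k + 2) ^ 2 * (ρ + k + 2) ^ 3 :=
    Nat.mul_le_mul (Nat.mul_le_mul h3 h4) h6
  have h8 : 8 ≤ (ρ + k + 2) ^ 2 := by nlinarith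
  have h9 : 8 * (ρ + k + 2) ^ 6 ≤ (ρ + k + 2) ^ 2 * (ρ + k + 2) ^ 6 := Nat.mul_le_mul_right _ h8
  calc 1 * (t * p * (2 * k * y)) + t * (2 * p * (k * (2 * k)))
      ≤ ρ * ((1 + ρ ^ 2) * k) * (2 * k * (2 * k)) + ρ * (2 * ((1 + ρ ^ 2) * k) * (k * (2 * k))) := by
        rw [one_mul]; exact Nat.add_le_add h1 h2
    _ = 8 * (ρ * (1 + ρ ^ 2) * k ^ 3) := by ring
    _ ≤ 8 * ((ρ + k + 2) * (ρ + k + 2) ^ 2 * (ρ + k + 2) ^ 3) := Nat.mul_le_mul_left _ h7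
    _ = 8 * (ρ + k + 2) ^ 6 := by ring
    _ ≤ (ρ + k + 2) ^ 2 * (ρ + k + 2) ^ 6 := h9
    _ = (ρ + k + 2) ^ 8 := by ring

theorem bound2 {ρ k t p y e r : ℕ} (hk : 0 < k) (ht0 : 0 < t) (ht : t ≤ ρ) (hp : p ≤ (1 + ρ ^ 2) * k) (hy : y ≤ k)
    (he : e ≤ k) (hr : r ≤ k * k * k) :
    e * (t * p * (2 * k * y)) + 2 * t * p * r ≤ rB ρ k := by
  unfold rB
  have h1 : e * (t * p * (2 * k * y)) ≤ k * (ρ * ((1 + ρ ^ 2) * k) * (2 * k * k)) :=
    Nat.mul_le_mul he (Nat.mul_le_mul (Nat.mul_le_mul ht hp) (Nat.mul_le_mul_left _ hy))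
  have h2 : 2 * t * p * r ≤ 2 * ρ * ((1 + ρ ^ 2) * k) * (k * k * k) :=
    Nat.mul_le_mul (Nat.mul_le_mul (Nat.mul_le_mul_left _ ht) hp) hr
  have h3 : ρ ≤ ρ + k + 2 := by omega
  have h4 : 1 + ρ ^ 2 ≤ (ρ + k + 2) ^ 2 := by nlinarith
  have h5 : k ≤ ρ + k + 2 := by omega
  have h6 : k ^ 4 ≤ (ρ + k + 2) ^ 4 := Nat.pow_le_pow_left h5 4
  have h7 : ρ * (1 + ρ ^ 2) * k ^ 4 ≤ (ρ + k + 2) * (ρ + k + 2) ^ 2 * (ρ + k + 2) ^ 4 :=
    Nat.mul_le_mul (Nat.mul_le_mul h3 h4) h6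
  have h8 : 4 ≤ ρ + k + 2 := by omega
  have h9 : 4 * (ρ + k + 2) ^ 7 ≤ (ρ + k + 2) * (ρ + k + 2) ^ 7 := Nat.mul_le_mul_right _ h8
  calc e * (t * p * (2 * k * y)) + 2 * t * p * r
      ≤ k * (ρ * ((1 + ρ ^ 2) * k) * (2 * k * k)) + 2 * ρ * ((1 + ρ ^ 2) * k) * (k * k * k) :=
        Nat.add_le_add h1 h2
    _ = 4 * (ρ * (1 + ρ ^ 2) * k ^ 4) := by ring
    _ ≤ 4 * ((ρ + k + 2) * (ρ + k + 2) ^ 2 * (ρ + k + 2) ^ 4) := Nat.mul_le_mul_left _ h7
    _ = 4 * (ρ + k + 2) ^ 7 := by ring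
    _ ≤ (ρ + k + 2) * (ρ + k + 2) ^ 7 := h9
    _ = (ρ + k + 2) ^ 8 := by ring

theorem boundh (σ k N : ℕ) :
    2 * k * σ ^ 2 + (4 * N + 5) + 2 * k * k * (2 * (k * (k + 1)) + 1) ≤ hB σ k N := by
  unfold hB
  have h1 : 2 * k * σ ^ 2 ≤ 4 * k * (σ + 1) ^ 2 := by nlinarith [Nat.zero_le (k * σ), Nat.zero_le (k * σ ^ 2)]
  have h2 : 5 + 2 * k * k * (2 * (k * (k + 1)) + 1) ≤ 20 * (k + 1) ^ 5 := by
    have h3 : k ≤ k + 1 := by omega
    have e1 : 2 * k * k * (2 * (k * (k + 1)) + 1) = 4 * (k ^ 3 * (k + 1)) + 2 * k ^ 2 := by ring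
    have h4 : k ^ 3 * (k + 1) ≤ (k + 1) ^ 3 * (k + 1) ^ 2 :=
      Nat.mul_le_mul (Nat.pow_le_pow_left h3 3) (by nlinarith)
    have h5 : k ^ 2 ≤ (k + 1) ^ 5 := by
      calc k ^ 2 ≤ (k + 1) ^ 2 := Nat.pow_le_pow_left h3 2
        _ ≤ (k + 1) ^ 5 := Nat.pow_le_pow_right (by omega) (by omega)
    have h6 : 1 ≤ (k + 1) ^ 5 := Nat.one_le_pow _ _ (by omega)
    have e2 : (k + 1) ^ 3 * (k + 1) ^ 2 = (k + 1) ^ 5 := by ring
    rw [e2] at h4
    rw [e1]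
    omega
  omega

/-- Row F12, first part. -/
theorem fam1 (hF : FsbS) (hA : AsmS) (hP : PosS) : Fam1S := by
  intro S _ _ Q _ _ B a b eps D z k H g inj W N hg hW hWN s n v₀ y₀ hn hs hsh hj
  obtain ⟨Pos, _, ps, hp⟩ := hP Q B a b eps D z k H
  obtain ⟨R, _, X, wd, hcard, hX⟩ := hF S Q B a b eps D z k H g inj W N hg hW hWN Pos ps hp s n v₀ y₀ hn hs hsh hj
  have hfinL : Finite B.L := H.finL
  have ht0 : 0 < Nat.card {t : B.L // eps (B.q t) = 1} := by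
    obtain ⟨t, ht⟩ := H.rot
    exact Nat.card_pos_iff.2 ⟨⟨⟨t, ht⟩⟩, inferInstance⟩
  have ht : Nat.card {t : B.L // eps (B.q t) = 1} ≤ Nat.card B.L :=
    Nat.card_le_card_of_injective (fun t : {t : B.L // eps (B.q t) = 1} => t.1) Subtype.val_injective
  obtain ⟨R', i', X', wd', In, hcard', hX'⟩ := hA S Q B a b eps D z k H g inj hg
    (fun v => Sh D (g v₀) (g v)) (fun v => Sh D (g y₀) (g v))
    (fun v v' h1 h2 => h1.imp (fun h => h.trans h2) (fun h => h.trans h2)) Pos ps hp s n _ R X wd _ _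
    1 (Nat.card {t : B.L // eps (B.q t) = 1}) hX Nat.one_pos ht0 (by ring) (by omega)
  refine ⟨R', i', X', wd', In, ?_, FamX.mono hX' ?_⟩
  · rw [hcard']
    refine le_trans ?_ (bound1 H.kpos ht hp.card (card_two (card_sheet H.fin H.kpos H.card inj v₀)
      (card_sheet H.fin H.kpos H.card inj y₀)))
    exact Nat.add_le_add_left (Nat.mul_le_mul_left _ hcard) _
  · have := boundh (Fintype.card S) k N
    omega

/-- Row F12, second part. -/
theorem fam2 (hF : NdbS) (hA : AsmS) (hP : PosS) : Fam2S := by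
  intro S _ _ Q _ _ B a b eps D z k H g inj W N hg hW hWN s n v₀ hn hs hD hE
  obtain ⟨Pos, _, ps, hp⟩ := hP Q B a b eps D z k H
  obtain ⟨R, _, X, wd, hcard, hX⟩ := hF S Q B a b eps D z k H g inj hg s n v₀ hn hs hD hE
  have hfinL : Finite B.L := H.finL
  have hfinQ : Finite Q := H.fin
  have ht0 : 0 < Nat.card {t : B.L // eps (B.q t) = 1} := by
    obtain ⟨t, ht⟩ := H.rot
    exact Nat.card_pos_iff.2 ⟨⟨⟨t, ht⟩⟩, inferInstance⟩
  have ht : Nat.card {t : B.L // eps (B.q t) = 1} ≤ Nat.card B.L :=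
    Nat.card_le_card_of_injective (fun t : {t : B.L // eps (B.q t) = 1} => t.1) Subtype.val_injective
  have hpos : 0 < Fintype.card Pos := by
    obtain ⟨c, _⟩ := hp.emp
    exact Fintype.card_pos_iff.2 ⟨c⟩
  have hEle : EI B a b eps D z k ≤ D := by
    refine (Subgroup.closure_le _).2 ?_
    rintro x ⟨m, hm, n', t, ht', rfl⟩
    exact H.nD.conj_mem _ (H.near t ht') _
  have hE0 : 0 < Nat.card (EI B a b eps D z k) := Nat.card_pos
  have hEk : Nat.card (EI B a b eps D z k) ≤ k :=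
    (Subgroup.card_le_of_le hEle).trans (Nat.le_of_dvd H.kpos H.card)
  have hb := boundh (Fintype.card S) k N
  obtain ⟨R', i', X', wd', In, hcard', hX'⟩ := hA S Q B a b eps D z k H g inj hg
    (fun v => Sh D (g v₀) (g v)) (fun v => Sh D (g v₀) (g v))
    (fun v v' h1 h2 => h1.imp (fun h => h.trans h2) (fun h => h.trans h2)) Pos ps hp s n _ R X wd _
    (hB (Fintype.card S) k N)
    (Nat.card (EI B a b eps D z k)) (2 * Nat.card {t : B.L // eps (B.q t) = 1} * Fintype.card Pos)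
    (CrB.mono hX (by omega)) hE0 (Nat.mul_pos (Nat.mul_pos Nat.two_pos ht0) hpos) (by ring) (by omega)
  refine ⟨R', i', X', wd', In, ?_, hX'⟩
  rw [hcard']
  refine bound2 H.kpos ht0 ht hp.card ?_ hEk hcard
  have e : Nat.card {v // Sh D (g v₀) (g v) ∨ Sh D (g v₀) (g v)} = Nat.card {v // Sh D (g v₀) (g v)} :=
    Nat.card_congr (Equiv.subtypeEquivRight fun v => or_self_iff)
  rw [e]
  exact card_sheet H.fin H.kpos H.card inj v₀

end Pool.Agent.Lib.MP_688fd0_co.SQ4.CV.F12
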